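import Mathlib

/-!
# The Edwards-Anderson model on hierarchical lattices: definitions

The hierarchical (diamond, Migdal-Kadanoff) lattice `H n` with `b` branches has two ends, `false`
(left) and `true` (right). `H 0` is one edge. `H (n + 1)` consists of `b` branches which join the
two ends; the branch `i` has a middle vertex and two halves, each a copy of `H n`: the half
`false` joins the left end to the middle vertex, the half `true` the middle vertex to the right
end. The dimension is `1 + log_2 b`: two for `b = 2`, three for `b = 4`.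
-/

open MeasureTheory

namespace Pool.Agent.N988.EA

noncomputable section

/-- The edges of the hierarchical lattice of level `n` with `b` branches. -/
def Edge (b : ℕ) : ℕ → Type
  | 0 => Unit
  | n + 1 => Fin b × Bool × Edge b n

/-- The interior vertices: the middle vertices of the `b` branches and the interior vertices of
their halves. -/
def Vert (b : ℕ) : ℕ → Type
  | 0 => Empty
  | n + 1 => Fin b ⊕ (Fin b × Bool × Vert b n)

/-- All vertices: the two ends and the interior vertices. -/
abbrev Pt (b n : ℕ) : Type := Bool ⊕ Vert b n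

/-- Finiteness. -/
def edgeFintype (b : ℕ) : (n : ℕ) → Fintype (Edge b n)
  | 0 => inferInstanceAs (Fintype Unit)
  | n + 1 =>
    letI := edgeFintype b n
    inferInstanceAs (Fintype (Fin b × Bool × Edge b n))

instance (b n : ℕ) : Fintype (Edge b n) := edgeFintype b n

/-- Finiteness. -/
def vertFintype (b : ℕ) : (n : ℕ) → Fintype (Vert b n)
  | 0 => inferInstanceAs (Fintype Empty)
  | n + 1 =>
    letI := vertFintype b n
    inferInstanceAs (Fintype (Fin b ⊕ (Fin b × Bool × Vert b n)))

instance (b n : ℕ) : Fintype (Vert b n) := vertFintype b n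

/-- Decidable equality. -/
def vertDecEq (b : ℕ) : (n : ℕ) → DecidableEq (Vert b n)
  | 0 => inferInstanceAs (DecidableEq Empty)
  | n + 1 =>
    letI := vertDecEq b n
    inferInstanceAs (DecidableEq (Fin b ⊕ (Fin b × Bool × Vert b n)))

instance (b n : ℕ) : DecidableEq (Vert b n) := vertDecEq b n

/-- The position in `H (n + 1)` of a vertex of the half `h` of the branch `i`. -/
def emb {b n : ℕ} (i : Fin b) (h : Bool) : Pt b n → Pt b (n + 1)
  | .inl s => if s = h then .inl h else .inr (.inl i)
  | .inr x => .inr (.inr (i, h, x))

/-- The two ends of an edge. -/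
def bd {b : ℕ} : (n : ℕ) → Edge b n → Bool → Pt b n
  | 0, _, s => .inl s
  | n + 1, e, s => emb e.1 e.2.1 (bd n e.2.2 s)

/-- The spin `1` or `-1`. -/
def sg (s : Bool) : ℝ := if s then 1 else -1

/-- Minus the energy of the configuration with the spins `τ` at the ends and `σ` inside, times the
inverse temperature, for the couplings `J` (times the inverse temperature). -/
def act {b n : ℕ} (J : Edge b n → ℝ) (τ : Bool → Bool) (σ : Vert b n → Bool) : ℝ :=
  ∑ e, J e * sg (Sum.elim τ σ (bd n e false)) * sg (Sum.elim τ σ (bd n e true))

/-- The partition function with boundary condition `τ`. -/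
def Z {b n : ℕ} (J : Edge b n → ℝ) (τ : Bool → Bool) : ℝ :=
  ∑ σ : Vert b n → Bool, Real.exp (act J τ σ)

/-- The magnetisation of the interior vertex `x` with boundary condition `τ`. -/
def mag {b n : ℕ} (J : Edge b n → ℝ) (τ : Bool → Bool) (x : Vert b n) : ℝ :=
  (∑ σ : Vert b n → Bool, sg (σ x) * Real.exp (act J τ σ)) / Z J τ

/-- The level of a vertex: `k` for the middle vertices of the cells `H (k + 1)`. -/
def lvl {b : ℕ} : (n : ℕ) → Vert b n → ℕ
  | 0, _ => 0
  | n + 1, .inl _ => n
  | n + 1, .inr p => lvl n p.2.2

/-- The vertex `x` is in the half `s` of a cell `H (l + 1)` with `l ≥ k`. -/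
def Turn {b : ℕ} (k : ℕ) (s : Bool) : (n : ℕ) → Vert b n → Prop
  | 0, _ => False
  | _ + 1, .inl _ => False
  | n + 1, .inr p => (k ≤ n ∧ p.2.1 = s) ∨ Turn k s n p.2.2

/-- The law of the couplings `1` and `-1` with probability one half. -/
def pm : Measure ℝ :=
  (1 / 2 : ENNReal) • Measure.dirac 1 + (1 / 2 : ENNReal) • Measure.dirac (-1)

end

end Pool.Agent.N988.EA
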