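import Mathlib
import Pool.Agent.N988.EA.Defs

/-!
# Gibbs states of the Edwards-Anderson model on infinite hierarchical lattices

The infinite lattice is the union of `H 0 ⊆ H 1 ⊆ …`, where `H n` is the half `(p n).2` of the
branch `(p n).1` of `H (n + 1)`.
-/

open MeasureTheory

namespace Pool.Agent.N988.EA

noncomputable section

/-- The edges of the infinite lattice: the edge of `H 0`, and for every `n` the edges of
`H (n + 1)` which are not in `H n`. -/
def EdgeInf (b : ℕ) (p : ℕ → Fin b × Bool) : Type :=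
  Unit ⊕ (Σ n : ℕ, {q : Fin b × Bool // q ≠ p n} × Edge b n)

/-- The couplings of the edges of `H n`. -/
def cpl {b : ℕ} (p : ℕ → Fin b × Bool) (J : EdgeInf b p → ℝ) : (n : ℕ) → Edge b n → ℝ
  | 0, _ => J (.inl ())
  | n + 1, e => if h : (e.1, e.2.1) = p n then cpl p J n e.2.2
      else J (.inr ⟨n, ⟨(e.1, e.2.1), h⟩, e.2.2⟩)

/-- Gibbs states of the infinite lattice, given by their marginals `γ n` on the spins of `H n`:
consistent probabilities with the DLR property, that the spins inside `H n` have, given the spins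
`τ` of its ends, the Gibbs distribution of `H n` with the boundary condition `τ`. -/
structure IsGibbs {b : ℕ} (p : ℕ → Fin b × Bool) (J : EdgeInf b p → ℝ)
    (γ : (n : ℕ) → (Pt b n → Bool) → ℝ) : Prop where
  nonneg : ∀ n s, 0 ≤ γ n s
  total : ∀ n, ∑ s, γ n s = 1
  consistent : ∀ n s, γ n s =
    ∑ s' : Pt b (n + 1) → Bool, if s' ∘ emb (p n).1 (p n).2 = s then γ (n + 1) s' else 0
  dlr : ∀ n τ (σ : Vert b n → Bool), γ n (Sum.elim τ σ) =
    (∑ σ' : Vert b n → Bool, γ n (Sum.elim τ σ')) * (Real.exp (act (cpl p J n) τ σ) /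
      Z (cpl p J n) τ)

end

end Pool.Agent.N988.EA
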