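import Mathlib
import Pool.Agent.N988.EA.Defs2

/-!
# The Edwards-Anderson model on hierarchical lattices: spin flip, unimodal laws
-/

open MeasureTheory Set
open scoped ENNReal

namespace Pool.Agent.N988.EA

noncomputable section

/-- The state with all spins reversed. -/
def fl {b : ℕ} (γ : (n : ℕ) → (Pt b n → Bool) → ℝ) : (n : ℕ) → (Pt b n → Bool) → ℝ :=
  fun n s => γ n fun x => !(s x)

/-- Unimodal laws: an even density, antitone on the positive half-line. -/
def Uni (ν : Measure ℝ) : Prop := ∃ f : ℝ → ℝ≥0∞, Measurable f ∧ (∀ x, f (-x) = f x) ∧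
  AntitoneOn f (Ioi 0) ∧ ν = volume.withDensity f

end

end Pool.Agent.N988.EA
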