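import Mathlib
import Pool.Agent.N988.EA.Defs

/-!
# The Edwards-Anderson model on hierarchical lattices: statements of the parts
-/

open MeasureTheory Set
open scoped ENNReal

namespace Pool.Agent.N988.EA

noncomputable section

/-! ## Effective couplings -/

/-- The effective coupling of two couplings in series. -/
def ph (a b : ℝ) : ℝ := Real.log (Real.cosh (a + b) / Real.cosh (a - b)) / 2

/-- The effective coupling of the ends. -/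
def K {b : ℕ} : (n : ℕ) → (Edge b n → ℝ) → ℝ
  | 0, J => J ()
  | n + 1, J => ∑ i : Fin b, ph (K n fun e => J (i, false, e)) (K n fun e => J (i, true, e))

/-- S_G (Gibbs measures of `H (n + 1)` in terms of `H n`).
Proof: the middle spin `s` of the branch `i` has, given `τ`, the weight
`exp (K₁ τ_f s + K₂ s τ_t)` by `Z = C exp (K τ_f τ_t)` for the two halves, so its mean is
`tanh (K₁ τ_f + K₂ τ_t)`; the other branches factor out. -/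
def S_G : Prop := ∀ (b : ℕ),
  (∀ (n : ℕ) (J : Edge b n → ℝ), ∃ C : ℝ, 0 < C ∧ ∀ τ : Bool → Bool,
    Z J τ = C * Real.exp (K n J * sg (τ false) * sg (τ true))) ∧
  (∀ (n : ℕ) (J : Edge b (n + 1) → ℝ) (τ : Bool → Bool) (i : Fin b),
    mag J τ (Sum.inl i : Vert b (n + 1)) =
      Real.tanh ((K n fun e => J (i, false, e)) * sg (τ false) +
        (K n fun e => J (i, true, e)) * sg (τ true))) ∧
  (∀ (n : ℕ) (J : Edge b (n + 1) → ℝ) (τ : Bool → Bool) (i : Fin b) (h : Bool) (x : Vert b n),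
    mag J τ (Sum.inr (i, h, x) : Vert b (n + 1)) =
      ∑ s : Bool, (1 + sg s * Real.tanh ((K n fun e => J (i, false, e)) * sg (τ false) +
        (K n fun e => J (i, true, e)) * sg (τ true))) / 2 *
          mag (fun e => J (i, h, e)) (fun t => if t = h then τ t else s) x)

/-- The defect of the polarisation of a middle vertex. -/
def gp (a b : ℝ) : ℝ := 1 - Real.tanh |(|a| - |b|)|

/-- S_MN: lower bounds of the polarisation by recursion (from `S_G`). Proof: `mag` is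
`A sg (τ false) + B sg (τ true)`; the mean `m` of the middle spin has `|m| ≥ 1 - gp`. -/
def S_MN : Prop := ∀ (b n : ℕ) (J : Edge b (n + 1) → ℝ) (i : Fin b),
  (1 - gp (K n fun e => J (i, false, e)) (K n fun e => J (i, true, e)) ≤
    ⨅ τ, |mag J τ (Sum.inl i : Vert b (n + 1))|) ∧
  (∀ (h : Bool) (x : Vert b n),
    (⨅ τ, |mag (fun e => J (i, h, e)) τ x|) -
      gp (K n fun e => J (i, false, e)) (K n fun e => J (i, true, e)) ≤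
    ⨅ τ, |mag J τ (Sum.inr (i, h, x) : Vert b (n + 1))|)

/-- S_CF: the magnetisation as a linear function of the end spins (from `S_G`). -/
def S_CF : Prop := ∀ (b : ℕ),
  (∀ (n : ℕ) (J : Edge b n → ℝ) (x : Vert b n), ∃ A B : ℝ, |A| + |B| ≤ 1 ∧
    ∀ τ, mag J τ x = A * sg (τ false) + B * sg (τ true)) ∧
  (∀ (n : ℕ) (J : Edge b (n + 1) → ℝ) (i : Fin b), ∃ α γ : ℝ,
    |α| + |γ| ≤ |Real.tanh (K n fun e => J (i, false, e))| +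
      |Real.tanh (K n fun e => J (i, true, e))| ∧
    (∀ τ, mag J τ (Sum.inl i : Vert b (n + 1)) = α * sg (τ false) + γ * sg (τ true)) ∧
    (∀ (x : Vert b n) (A B : ℝ),
      (∀ τ, mag (fun e => J (i, false, e)) τ x = A * sg (τ false) + B * sg (τ true)) →
      ∀ τ, mag J τ (Sum.inr (i, false, x) : Vert b (n + 1)) =
        (A + B * α) * sg (τ false) + B * γ * sg (τ true)) ∧
    (∀ (x : Vert b n) (A B : ℝ),
      (∀ τ, mag (fun e => J (i, true, e)) τ x = A * sg (τ false) + B * sg (τ true)) →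
      ∀ τ, mag J τ (Sum.inr (i, true, x) : Vert b (n + 1)) =
        A * α * sg (τ false) + (A * γ + B) * sg (τ true)))

/-! ## Laws -/

/-- The law of the couplings times the inverse temperature. -/
def P (μ : Measure ℝ) (b n : ℕ) : Measure (Edge b n → ℝ) := Measure.pi fun _ => μ

/-- The law of a branch. -/
def br (ν : Measure ℝ) : Measure ℝ := (ν.prod ν).map fun p => ph p.1 p.2

/-- The law of `b` branches. -/
def lawstep (b : ℕ) (ν : Measure ℝ) : Measure ℝ :=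
  (Measure.pi fun _ : Fin b => br ν).map fun y => ∑ i, y i

/-- The law of the effective coupling. -/
def lw (μ : Measure ℝ) (b : ℕ) : ℕ → Measure ℝ
  | 0 => μ
  | n + 1 => lawstep b (lw μ b n)

/-- S_H (laws). Proof: `MeasureTheory.Measure.infinitePi_map_curry`, `infinitePi_eq_pi` (finite
products of products); measurability of `K`. -/
def S_H : Prop := ∀ (μ : Measure ℝ) [IsProbabilityMeasure μ] (b n : ℕ),
  Measurable (K n : (Edge b n → ℝ) → ℝ) ∧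
  (P μ b n).map (K n) = lw μ b n ∧
  (∀ (i : Fin b) (h : Bool),
    (P μ b (n + 1)).map (fun J e => J (i, h, e)) = P μ b n) ∧
  (∀ i : Fin b, (P μ b (n + 1)).map
    (fun J => ((K n fun e => J (i, false, e)), (K n fun e => J (i, true, e)))) =
      (lw μ b n).prod (lw μ b n)) ∧
  (μ.map (fun x => -x) = μ → (lw μ b n).map (fun x => -x) = lw μ b n)

/-! ## Two branches -/

/-- S_T: `E tanh² K` for `b` branches. Proof: `tanh² (ph a b) = tanh² a tanh² b`, and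
`E tanh² (X + Y) ≤ E tanh² X + E tanh² Y` for independent symmetric `X`, `Y`, from
`((s+t)/(1+st))² + ((s-t)/(1-st))² ≤ 2(s² + t²)` for `|s|, |t| < 1`: with `P = s² + t²`, `u = st`,
it says `P (3 - u²) ≤ 4`, and `P ≤ 1 + u²`. -/
def S_T : Prop := ∀ (b : ℕ) (ν : Measure ℝ) [IsProbabilityMeasure ν],
  ν.map (fun x => -x) = ν →
    ∫ x, Real.tanh x ^ 2 ∂(lawstep b ν) ≤ b * (∫ x, Real.tanh x ^ 2 ∂ν) ^ 2

/-- S_T1: the first level with two branches. -/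
def S_T1 : Prop := ∀ β : ℝ, ∃ q : ℝ, 0 ≤ q ∧ q < 1 / 2 ∧
  ∫ x, Real.tanh x ^ 2 ∂(lawstep 2 (pm.map fun x => β * x)) ≤ q

/-! ## Windows -/

/-- Number of the hooks of length at least `x` of the grid `k × l` (for `1 ≤ x`). -/
def HH (x k l : ℕ) : ℕ := min (min k l) ((k + l + 1 - x) / 2)

/-- S_CNT (counting). Sequences with gaps at least `S`: the number of sums in a window.
Proof: decompose the grid `k₁ × k₂` into the hooks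
`(u, u), (u, u+1), …, (u, k₂-1)… ` as follows: for `u < min k₁ k₂` the hook `u` is
`(u, 0), …, (u, k₂-1-u), (u+1, k₂-1-u), …, (k₁-1, k₂-1-u)`, a chain of length
`k₁ + k₂ - 1 - 2u` along which the sum `f₁ + f₂` increases by at least `S` at each step. Same for
`k₃ × k₄`. For two chains of lengths `ℓ, ℓ'` at most `min ℓ ℓ'` pairs have the sum in the window
(each element of one chain has at most one partner), and
`∑ᵤ ∑ᵥ min ℓᵤ ℓᵥ' = ∑ₓ #{u : x ≤ ℓᵤ} #{v : x ≤ ℓᵥ'}`. -/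
def S_CNT : Prop := ∀ (S z : ℝ) (_ : 0 < S) (f₁ f₂ f₃ f₄ : ℕ → ℝ) (k₁ k₂ k₃ k₄ X : ℕ),
  (∀ i, i + 1 < k₁ → f₁ i + S ≤ f₁ (i + 1)) → (∀ i, i + 1 < k₂ → f₂ i + S ≤ f₂ (i + 1)) →
  (∀ i, i + 1 < k₃ → f₃ i + S ≤ f₃ (i + 1)) → (∀ i, i + 1 < k₄ → f₄ i + S ≤ f₄ (i + 1)) →
  k₁ + k₂ ≤ X →
  ∑ a ∈ Finset.range k₁, ∑ b ∈ Finset.range k₂, ∑ c ∈ Finset.range k₃, ∑ d ∈ Finset.range k₄,
    (Ico z (z + S)).indicator (fun _ => (1 : ℝ≥0∞)) (f₁ a + f₂ b + f₃ c + f₄ d) ≤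
  ∑ x ∈ Finset.Icc 1 X, (HH x k₁ k₂ : ℝ≥0∞) * (HH x k₃ k₄ : ℝ≥0∞)

/-- Layered measures: mixtures of uniform measures on sequences with gaps at least `S`. -/
def Lay (ν : Measure ℝ) (S q : ℝ) : Prop := ∃ h : ℝ → ℝ → ℝ,
  Measurable (fun p : ℝ × ℝ => h p.1 p.2) ∧
  (∀ ρ s t, 0 < ρ → ρ < 1 → -ρ < s → s + 2 * q ≤ t → t < ρ → h ρ s + S ≤ h ρ t) ∧
  (∀ f : ℝ → ℝ≥0∞, Measurable f →
    ∫⁻ x, f x ∂ν = ∫⁻ ρ in Ioo (0 : ℝ) 1, ∫⁻ t in Ioo (-ρ) ρ, f (h ρ t))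

/-- S_QU (odd quantile function). Proof: `g t = sInf {x | 0 ≤ x ∧ t ≤ ν (Icc (-x) x)}` for
`0 < t < 1`, odd, constant for `1 ≤ t` (or anything monotone). -/
def S_QU : Prop := ∀ (ν : Measure ℝ) [IsProbabilityMeasure ν], ν.map (fun x => -x) = ν →
  ∃ g : ℝ → ℝ, MonotoneOn g (Ioo (-1) 1) ∧ Measurable g ∧ (∀ t, g (-t) = -g t) ∧
    ∀ f : ℝ → ℝ≥0∞, Measurable f →
      ∫⁻ x, f x ∂ν = (1 / 2 : ℝ≥0∞) * ∫⁻ t in Ioo (-1 : ℝ) 1, f (g t)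

/-- S_PH (series composition). Proof: `ph` is odd in `a`, increasing in `a` for `M ≥ 0`, and
`a - log 2 / 2 ≤ ph a M ≤ a` for `0 ≤ a ≤ M`. -/
def S_PH : Prop :=
  (∀ a b : ℝ, ph (-a) b = -ph a b) ∧ (∀ a b : ℝ, ph a (-b) = -ph a b) ∧
  (∀ a b : ℝ, ph b a = ph a b) ∧ Continuous (fun p : ℝ × ℝ => ph p.1 p.2) ∧
  (∀ a b : ℝ, Real.tanh (ph a b) = Real.tanh a * Real.tanh b) ∧
  (∀ a b M : ℝ, -M ≤ a → a ≤ b → b ≤ M → (b - a) - 2 ≤ ph b M - ph a M)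

/-- S_LAY: the law of a branch is layered (from `S_QU`, `S_PH`). Proof: `h ρ t = ph (g t) (g ρ)`.
If `g t - g s < R` with `s + 2 q ≤ t` then `ν (Ico (g s) (g s + R)) ≥ (t - s) / 2 ≥ q`. The
formula: `E f = 1/4 ∫∫ f (ph (g t) (g t'))` over `(-1,1)²`; by symmetry twice the part
`|t| < |t'|`, which is `∫ ρ ∈ (0,1), ∫ t ∈ (-ρ, ρ)` of
`f (ph (g t) (g ρ)) + f (ph (g t) (g (-ρ)))`, and `ph (g t) (g (-ρ)) = ph (g (-t)) (g ρ)`. -/
def S_LAY : Prop := ∀ (ν : Measure ℝ) [IsProbabilityMeasure ν], ν.map (fun x => -x) = ν →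
  ∀ q R : ℝ, 0 < q → 0 < R → (∀ x, ν (Ico x (x + R)) < ENNReal.ofReal q) → Lay (br ν) (R - 2) q

/-- `1 - (1 - k q)₊²`. -/
def FF (q : ℝ) (k : ℕ) : ℝ := 1 - (max 0 (1 - k * q)) ^ 2

/-- The weight of the sequences of length `k` (for `1 ≤ k`). -/
def La (q : ℝ) (k : ℕ) : ℝ := 2 * FF q k - FF q (k - 1) - FF q (k + 1)

/-- The bound. -/
def Phi (N : ℕ) (q : ℝ) : ℝ :=
  ∑ x ∈ Finset.Icc 1 (2 * N),
    (∑ k ∈ Finset.Icc 1 N, ∑ l ∈ Finset.Icc 1 N, La q k * La q l * HH x k l) ^ 2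

/-- S_QUAD (sum of four layered variables; from `S_CNT`). Proof: for fixed `ρ`,
`∫ t ∈ (-ρ, ρ), F t = ∫ τ ∈ (0, 2q), ∑ i < n(ρ, τ), F (-ρ + τ + 2 q i)` with
`n(ρ, τ) = ⌈(2ρ - τ)/(2q)⌉₊` (`i < n ↔ τ + 2 q i < 2 ρ`), and `i ↦ h ρ (-ρ + τ + 2 q i)` has gaps
at least `S` for `i < n`. So the probability is the integral over `ω₁, …, ω₄` (`ω = (ρ, τ)`) of the
count of `S_CNT`, at most `∑ₓ (∫∫ HH x n(ω₁) n(ω₂))²`, and the measure of `{ω | k ≤ n(ω)}` is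
`FF k - FF (k - 1)` for `1 ≤ k`. -/
def S_QUAD : Prop := ∀ (ν : Measure ℝ) [IsProbabilityMeasure ν] (S q : ℝ) (N : ℕ), 0 < S → 0 < q →
  1 ≤ N * q → Lay ν S q → ∀ z : ℝ,
    ∫⁻ a, ∫⁻ b, ∫⁻ c, ∫⁻ d, (Ico z (z + S)).indicator (fun _ => (1 : ℝ≥0∞)) (a + b + c + d)
      ∂ν ∂ν ∂ν ∂ν ≤ ENNReal.ofReal (Phi N q)

/-- S_STEP (window step; from `S_LAY`, `S_QUAD`). -/
def S_STEP : Prop := ∀ (b : ℕ) (ν : Measure ℝ) [IsProbabilityMeasure ν],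
  ν.map (fun x => -x) = ν → 4 ≤ b → ∀ (q R : ℝ) (N : ℕ), 0 < q → 2 < R → 1 ≤ N * q →
    (∀ x, ν (Ico x (x + R)) < ENNReal.ofReal q) →
    ∀ x, lawstep b ν (Ico x (x + (R - 2))) ≤ ENNReal.ofReal (Phi N q)

/-- S_NUM (numerical chain): `Φ(q) < q` for `1/25 ≤ q ≤ 501/1000`, as a chain. -/
def S_NUM : Prop := ∃ (M : ℕ) (q : ℕ → ℝ) (N : ℕ → ℕ), q 0 = 501 / 1000 ∧ q M ≤ 1 / 25 ∧
  (∀ i, i ≤ M → 0 < q i) ∧ ∀ i, i < M → 1 ≤ N i * q i ∧ Phi (N i) (q i) < q (i + 1)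

/-- S_ANA (small `q`): for `1 ≤ ℓ` put `c ℓ = ℓ (4 n - 3 ℓ) / 4` if `ℓ ≤ n`, `(2 n - ℓ)² / 4` if
`n ≤ ℓ ≤ 2 n`; then the inner sum of `Phi n (1/n)` is `4 n⁻⁴ ∑_{ℓ ≥ x} c ℓ`, and
`n * Phi n (1 / n) = 302 / 315 + O(n⁻²)`. -/
def S_ANA : Prop := ∀ n : ℕ, 25 ≤ n → (n + 1) * Phi n (1 / n) ≤ 998 / 1000

/-- S_WIN: the effective couplings spread out (from `S_STEP`, `S_NUM`, `S_ANA`, `S_H`). -/
def S_WIN : Prop := ∃ (C r : ℝ), 0 < C ∧ 0 < r ∧ r < 1 ∧ ∃ c : ℝ, 0 < c ∧ ∃ R₀ : ℝ, 0 < R₀ ∧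
  ∀ (b : ℕ) (μ : Measure ℝ) [IsProbabilityMeasure μ], 4 ≤ b → μ.map (fun x => -x) = μ →
  ∀ R : ℝ, R₀ ≤ R → (∀ x, μ (Ico x (x + R)) ≤ 1 / 2) →
  ∀ (n : ℕ) (x : ℝ), (lw μ b n) (Ico x (x + c * R)) ≤ ENNReal.ofReal (C * r ^ n)

/-- S_GAP (from `S_WIN`): the defects are summable. -/
def S_GAP : Prop := ∀ (b : ℕ), 4 ≤ b → ∀ (μ : Measure ℝ) [IsProbabilityMeasure μ],
  μ.map (fun x => -x) = μ → ∀ r : ℝ, 0 < r → (∀ x, μ (Ico x (x + r)) ≤ 1 / 2) →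
  ∀ ε : ℝ, 0 < ε → ∃ (β₀ : ℝ) (k : ℕ), 0 < β₀ ∧ ∀ β : ℝ, β₀ ≤ β → ∀ n : ℕ,
    ∑ j ∈ Finset.Ico k n, ∫ p : ℝ × ℝ, gp p.1 p.2
      ∂((lw (μ.map fun x => β * x) b j).prod (lw (μ.map fun x => β * x) b j)) ≤ ε

/-- S_A (low temperature, `b ≥ 4`). -/
def S_A : Prop := ∀ (b : ℕ), 4 ≤ b → ∀ (μ : Measure ℝ) [IsProbabilityMeasure μ],
  μ.map (fun x => -x) = μ → ∀ r : ℝ, 0 < r → (∀ x, μ (Ico x (x + r)) ≤ 1 / 2) →
  ∀ ε : ℝ, 0 < ε → ∃ (β₀ : ℝ) (k : ℕ), ∀ β : ℝ, β₀ ≤ β → ∀ (n : ℕ) (x : Vert b n), k ≤ lvl n x →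
    1 - ε ≤ ∫ J, ⨅ τ, |mag (fun e => β * J e) τ x| ∂(Measure.pi fun _ : Edge b n => μ)

/-- S_B (`b = 2`, all temperatures). -/
def S_B : Prop := ∀ β ε : ℝ, 0 < ε → ∃ k : ℕ, ∀ (n : ℕ) (x : Vert 2 n),
  (k ≤ lvl n x ∨ ∀ s, Turn k s n x) →
    ∫ J, ⨆ τ, |mag (fun e => β * J e) τ x| ∂(Measure.pi fun _ : Edge 2 n => pm) ≤ ε

end

end Pool.Agent.N988.EA
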