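import Mathlib
import Pool.Agent.N988.EA.Defs2
import Pool.Agent.N988.EA.Stm

/-!
# Infinite hierarchical lattices: statements of the parts
-/

open MeasureTheory Set Filter
open scoped ENNReal Topology

namespace Pool.Agent.N988.EA

noncomputable section

/-- The vertex `x` of `H m` as a vertex of `H (m + k)`. -/
def embn {b : ℕ} (p : ℕ → Fin b × Bool) (m : ℕ) (x : Vert b m) : (k : ℕ) → Vert b (m + k)
  | 0 => x
  | k + 1 => .inr ((p (m + k)).1, (p (m + k)).2, embn p m x k)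

/-- S_EX0: existence of a Gibbs state. Proof: compactness. Take any boundary conditions `τ n` and
the marginals `G n m : (Pt b m → Bool) → ℝ` of the Gibbs distributions of `H n` on `H m`
(`m ≤ n`), and the limits along `Filter.hyperfilter ℕ` of `n ↦ G n m s ∈ [0, 1]`. -/
def S_EX0 : Prop := ∀ (b : ℕ) (p : ℕ → Fin b × Bool) (J : EdgeInf b p → ℝ), ∃ γ, IsGibbs p J γ

/-- S_EX: two Gibbs states if a magnetisation does not vanish. Proof: as `S_EX0`, with the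
boundary conditions `τ k` for which `δ ≤ mag` (or `-τ k`: global spin flip), and with the flipped
ones for `γ'`. -/
def S_EX : Prop := ∀ (b : ℕ) (p : ℕ → Fin b × Bool) (J : EdgeInf b p → ℝ) (m : ℕ) (x : Vert b m)
  (δ : ℝ), (∀ k, ∃ τ, δ ≤ |mag (cpl p J (m + k)) τ (embn p m x k)|) →
  ∃ γ γ', IsGibbs p J γ ∧ IsGibbs p J γ' ∧ δ ≤ ∑ s : Pt b m → Bool, sg (s (.inr x)) * γ m s ∧
    ∑ s : Pt b m → Bool, sg (s (.inr x)) * γ' m s ≤ -δ

/-- S_UN: uniqueness. Proof (deterministic): for a function `f = c + a σ₀ + b σ₁ + e σ₀ σ₁` of the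
end spins of `H m` the conditional expectation, given the end spins of `H (m + 1)`, is
`(c + e α) + (a + b α) τ₀ + b γ τ₁ + e γ τ₀ τ₁` if `H m` is a half `false`, and
`(c + e γ) + a α τ₀ + (a γ + b) τ₁ + e α τ₀ τ₁` if it is a half `true`, where the middle vertex of
the branch has the mean `tanh (K₁ τ₀ + K₂ τ₁) = α τ₀ + γ τ₁`, `|α| + |γ| ≤ |tanh K₁| + |tanh K₂|`.
After both halves have occurred at high levels, `|a| + |b| + |e|` is small; by `dlr` the two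
Gibbs states have the same law of the ends of `H m`, so they agree. (The middle vertex: `S_G`.) -/
def S_UN : Prop := ∀ (b : ℕ) (p : ℕ → Fin b × Bool) (J : EdgeInf b p → ℝ),
  (∀ (s : Bool) (k : ℕ), ∃ n, k ≤ n ∧ (p n).2 = s) →
  Tendsto (fun n => |Real.tanh (K n fun e => cpl p J (n + 1) ((p n).1, false, e))| +
    |Real.tanh (K n fun e => cpl p J (n + 1) ((p n).1, true, e))|) atTop (𝓝 0) →
  ∀ γ γ', IsGibbs p J γ → IsGibbs p J γ' → γ = γ'

/-- S_MARG: the couplings of `H n` are independent with law `μ`. Proof: `e ↦` its index in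
`EdgeInf b p` is injective (induction), `cpl p J n e = J (index e)`; finite marginals of
`Measure.infinitePi`. -/
def S_MARG : Prop := ∀ (μ : Measure ℝ) [IsProbabilityMeasure μ] (b : ℕ) (p : ℕ → Fin b × Bool)
  (n : ℕ), Measurable (fun (J : EdgeInf b p → ℝ) => cpl p J n) ∧
    (Measure.infinitePi fun _ : EdgeInf b p => μ).map (fun J => cpl p J n) = P μ b n

/-- S_GAP2 (from `S_WIN`): the defects are summable, with `β₀` independent of `ε`. Proof: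
`gp a b ≤ 2 exp (-2 t)` unless `||a| - |b|| < t`; `t = j` at level `j`; so the integral is at most
`2 exp (-2 j) + 2 (2 j / (c β r) + 2) C r₀ ^ j`, uniformly in `β ≥ β₀`. -/
def S_GAP2 : Prop := ∀ (b : ℕ), 4 ≤ b → ∀ (μ : Measure ℝ) [IsProbabilityMeasure μ],
  μ.map (fun x => -x) = μ → ∀ r : ℝ, 0 < r → (∀ x, μ (Ico x (x + r)) ≤ 1 / 2) →
  ∃ β₀ : ℝ, 0 < β₀ ∧ ∀ ε : ℝ, 0 < ε → ∃ k : ℕ, ∀ β : ℝ, β₀ ≤ β → ∀ n : ℕ,
    ∑ j ∈ Finset.Ico k n, ∫ p : ℝ × ℝ, gp p.1 p.2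
      ∂((lw (μ.map fun x => β * x) b j).prod (lw (μ.map fun x => β * x) b j)) ≤ ε

/-- S_A2 (finite volume, low temperature, `b ≥ 4`; from `S_GAP2`, `S_MN`, `S_H`). -/
def S_A2 : Prop := ∀ (b : ℕ), 4 ≤ b → ∀ (μ : Measure ℝ) [IsProbabilityMeasure μ],
  μ.map (fun x => -x) = μ → ∀ r : ℝ, 0 < r → (∀ x, μ (Ico x (x + r)) ≤ 1 / 2) →
  ∃ β₀ : ℝ, 0 < β₀ ∧ ∀ ε : ℝ, 0 < ε → ∃ k : ℕ, ∀ β : ℝ, β₀ ≤ β →
    ∀ (n : ℕ) (x : Vert b n), k ≤ lvl n x →
    1 - ε ≤ ∫ J, ⨅ τ, |mag (fun e => β * J e) τ x| ∂(Measure.pi fun _ : Edge b n => μ)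

/-- S_IA (infinite volume, low temperature, `b ≥ 4`; from `S_A2`, `S_EX`, `S_MARG`). Proof: for
`x` the middle vertex of `H (m + 1)`, `m ≥ k`, `L_j = ⨆ τ |mag|` at `H (m + 1 + j)` is
nonincreasing in `j` (averages, `S_G`) with expectation at least `1 - ε`, so its limit is positive
with probability at least `1 - ε`; then `S_EX`. -/
def S_IA : Prop := ∀ (b : ℕ), 4 ≤ b → ∀ (μ : Measure ℝ) [IsProbabilityMeasure μ],
  μ.map (fun x => -x) = μ → ∀ r : ℝ, 0 < r → (∀ x, μ (Ico x (x + r)) ≤ 1 / 2) →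
  ∃ β₀ : ℝ, 0 < β₀ ∧ ∀ β : ℝ, β₀ ≤ β → ∀ p : ℕ → Fin b × Bool,
    ∀ᵐ J ∂(Measure.infinitePi fun _ : EdgeInf b p => μ),
      ∃ γ γ', γ ≠ γ' ∧ IsGibbs p (fun e => β * J e) γ ∧ IsGibbs p (fun e => β * J e) γ'

/-- S_IB (infinite volume, `b = 2`, all temperatures; from `S_EX0`, `S_UN`, `S_T`, `S_T1`, `S_H`,
`S_MARG`). Proof: `τ_n = E tanh² K_n` has `τ_(n+1) ≤ 2 τ_n²`, `τ_1 ≤ q < 1/2`, so
`∑ E |tanh K_n| ≤ ∑ √τ_n < ∞`, and almost surely `∑ |tanh K_n| < ∞`. -/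
def S_IB : Prop := ∀ (β : ℝ) (p : ℕ → Fin 2 × Bool), (∀ (s : Bool) (k : ℕ), ∃ n, k ≤ n ∧
    (p n).2 = s) →
  ∀ᵐ J ∂(Measure.infinitePi fun _ : EdgeInf 2 p => pm), ∃! γ, IsGibbs p (fun e => β * J e) γ

end

end Pool.Agent.N988.EA
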