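import Mathlib
import Pool.Agent.N988.EA.Stm2

/-!
# Infinite hierarchical lattices: uniqueness criterion
-/

open MeasureTheory Set Filter
open scoped ENNReal Topology

namespace Pool.Agent.N988.EA

noncomputable section

/-- S_UQ (from `S_EX0`, `S_UN`, `S_T`, `S_H`, `S_MARG`): if `b E tanh² K < 1` at some level `m`,
then almost surely there is exactly one Gibbs state. Proof: `τ_n = E tanh² K_n` has
`τ_(n+1) ≤ b τ_n²`, so `b τ_(m+j) ≤ (b τ_m)^(2^j)` and `∑ E |tanh K_n| ≤ ∑ √τ_n < ∞`; so almost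
surely `|tanh K_n| → 0` for both halves of the branch `(p n).1` of `H (n + 1)` (their law is
`lw _ b n` by `S_MARG` and `S_H`), then `S_UN` and `S_EX0`; `cpl p (β J) n = β cpl p J n`. -/
def S_UQ : Prop := ∀ (b : ℕ) (μ : Measure ℝ) [IsProbabilityMeasure μ],
  μ.map (fun x => -x) = μ → ∀ (β : ℝ) (m : ℕ),
    b * ∫ x, Real.tanh x ^ 2 ∂(lw (μ.map fun x => β * x) b m) < 1 →
  ∀ p : ℕ → Fin b × Bool, (∀ (s : Bool) (k : ℕ), ∃ n, k ≤ n ∧ (p n).2 = s) →
    ∀ᵐ J ∂(Measure.infinitePi fun _ : EdgeInf b p => μ), ∃! γ, IsGibbs p (fun e => β * J e) γ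

end

end Pool.Agent.N988.EA
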