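import Mathlib
import Pool.Agent.N988.EA.Stm3
import Pool.Agent.N988.EA.Defs3

/-!
# Two branches, unimodal laws (Gaussian couplings): statements of the parts
-/

open MeasureTheory Set Filter
open scoped ENNReal Topology

namespace Pool.Agent.N988.EA

noncomputable section

/-- S_WI (Wintner): the convolution of even functions, antitone on the positive half-line, is such
a function. Proof: for `0 < x < x'`, `m = (x + x') / 2`, reflect the part `y > m` at `m`: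
the value at `x` is `∫ y < m, (a c + b d)`, the value at `x'` is `∫ y < m, (b c + a d)`, with
`a = f (x - y) ≥ b = f (x' - y)`, `c = g y ≥ d = g (2 m - y)` (for almost every `y`: the points where
an argument vanishes are a null set). -/
def S_WI : Prop := ∀ f g : ℝ → ℝ≥0∞, Measurable f → Measurable g → (∀ x, f (-x) = f x) →
  (∀ x, g (-x) = g x) → AntitoneOn f (Ioi 0) → AntitoneOn g (Ioi 0) →
  ∀ x x' : ℝ, |x| ≤ |x'| → ∫⁻ y, f (x' - y) * g y ≤ ∫⁻ y, f (x - y) * g y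

/-- S_AN (Anderson's inequality on the line, from `S_WI` with `g` the indicator of `[-t, t]`). -/
def S_AN : Prop := ∀ ν : Measure ℝ, Uni ν → ∀ t x x' : ℝ, |x| ≤ |x'| →
  ν (Icc (x' - t) (x' + t)) ≤ ν (Icc (x - t) (x + t))

/-- S_SUM (from `S_WI`): sums of two independent unimodal variables are unimodal. -/
def S_SUM : Prop := ∀ ν ν' : Measure ℝ, IsProbabilityMeasure ν → IsProbabilityMeasure ν' →
  Uni ν → Uni ν' → Uni ((ν.prod ν').map fun p => p.1 + p.2)

/-- S_CMP (from `S_AN`; comparison of tails). Proof: with `X, Y` independent of laws `ν, ν'`,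
`P(|X + Y| ≤ t) = E g(|Y|)`, `g y = P(|X + y| ≤ t)` antitone in `|y|`, so it is at least the same
with `Y` replaced by the stochastically larger `Y'`; then replace `X`. -/
def S_CMP : Prop := ∀ ν₁ ν₂ ρ₁ ρ₂ : Measure ℝ, IsProbabilityMeasure ν₁ → IsProbabilityMeasure ν₂ →
  IsProbabilityMeasure ρ₁ → IsProbabilityMeasure ρ₂ → Uni ν₁ → Uni ρ₂ →
  (∀ t : ℝ, 0 ≤ t → ν₁ {x | t < |x|} ≤ ρ₁ {x | t < |x|}) →
  (∀ t : ℝ, 0 ≤ t → ν₂ {x | t < |x|} ≤ ρ₂ {x | t < |x|}) →
  ∀ t : ℝ, 0 ≤ t → (ν₁.prod ν₂) {p | t < |p.1 + p.2|} ≤ (ρ₁.prod ρ₂) {p | t < |p.1 + p.2|}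

/-- S_BR: the law of a branch is unimodal. Proof: for `t > 0` the law of `ph X Y` has the density
`h t = 2 ∫ b > t, f(ψ b) f(b) (sinh (2 ψ b) / sinh (2 t)) db`, `ψ b = artanh (tanh t / tanh b)`
(substitute `a = ψ b` for fixed `b`; `da/dt = sinh 2a / sinh 2t`; four quadrants, two of them
give positive values). For `tanh t = tanh a tanh b` one has
`sinh 2a sinh 2b = sinh 2t (cosh 2a + cosh 2b)`, and at fixed `t`, `|da/db| = sinh 2a / sinh 2b`, so
`sinh 2a / sinh 2t = coth 2b + coth 2a |da/db|` and therefore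
`h t = 4 ∫ b > t, f(ψ b) f(b) coth (2 b) db`, which is antitone in `t` because `ψ b` increases with
`t` and the domain shrinks. -/
def S_BR : Prop := ∀ ν : Measure ℝ, IsProbabilityMeasure ν → Uni ν → Uni (br ν)

/-- The reference tail. -/
def Ht (t : ℝ) : ℝ := (1 + t) * Real.exp (-(2 * t))

/-- The density of the reference law with tail `Ht ^ 2`. -/
def rh (x : ℝ) : ℝ := (1 + 3 * |x| + 2 * x ^ 2) * Real.exp (-(4 * |x|))

/-- S_REF: the sum of two independent variables with density `rh` has, for `x ≥ 0`, the tail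
`exp (-4x) (1 + 727/256 x + 215/64 x² + 2 x³ + 7/12 x⁴ + x⁵/15) ≤ Ht (11/10 x)` (the Taylor
coefficients of `exp (9/5 x) (1 + 11/10 x)` are at least these). The law `ρ` with density `rh` is
unimodal, with tails `ρ {t < |x|} = Ht t ^ 2`. (Please check the numbers; only the inequality is
needed.) -/
def S_REF : Prop := ∃ ρ : Measure ℝ, IsProbabilityMeasure ρ ∧ Uni ρ ∧
  (∀ t : ℝ, 0 ≤ t → ρ {x | t < |x|} = ENNReal.ofReal (Ht t ^ 2)) ∧
  ∀ t : ℝ, 0 ≤ t → (ρ.prod ρ) {p | t < |p.1 + p.2|} ≤ ENNReal.ofReal (Ht (11 / 10 * t))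

/-- S_CON (from `S_CMP`, `S_BR`, `S_REF`): contraction of the tails. Proof: `|ph a b| ≤ min |a| |b|`,
so `br ν {t < |x|} ≤ (ν {t < |x|})² ≤ Ht (t / u)²`; compare with the reference law scaled by `u`
(`ρ.map (u * ·)`, unimodal). -/
def S_CON : Prop := ∀ ν : Measure ℝ, IsProbabilityMeasure ν → Uni ν → ∀ u : ℝ, 0 < u →
  (∀ t : ℝ, 0 ≤ t → ν {x | t < |x|} ≤ ENNReal.ofReal (Ht (t / u))) →
  Uni (lawstep 2 ν) ∧
  ∀ t : ℝ, 0 ≤ t → lawstep 2 ν {x | t < |x|} ≤ ENNReal.ofReal (Ht (11 / 10 * (t / u)))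

/-- S_INI: unimodal laws with exponential moments have such tails. Proof: `x ↦ ν {|·| ≤ x} / x` is
antitone on `(0, ∞)`, so `ν {t < |x|} ≤ 1 - c t ≤ Ht (t / u)` for `t ≤ t₀` and `u ≥ 1 / c`
(`Ht s ≥ 1 - s`), and for large `t` by Markov's inequality, in between for `u` large. -/
def S_INI : Prop := ∀ ν : Measure ℝ, IsProbabilityMeasure ν → Uni ν → ∀ c : ℝ, 0 < c →
  Integrable (fun x => Real.exp (c * |x|)) ν →
  ∃ u : ℝ, 0 < u ∧ ∀ t : ℝ, 0 ≤ t → ν {x | t < |x|} ≤ ENNReal.ofReal (Ht (t / u))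

/-- S_LIM (from `S_CON`, `S_INI`). -/
def S_LIM : Prop := ∀ μ : Measure ℝ, IsProbabilityMeasure μ → Uni μ → ∀ c : ℝ, 0 < c →
  Integrable (fun x => Real.exp (c * |x|)) μ → ∀ β : ℝ, ∃ m : ℕ,
    2 * ∫ x, Real.tanh x ^ 2 ∂(lw (μ.map fun x => β * x) 2 m) < 1

/-- S_GS: the standard Gaussian law satisfies the assumptions. -/
def S_GS : Prop := Uni (ProbabilityTheory.gaussianReal 0 1) ∧
  Integrable (fun x => Real.exp (1 * |x|)) (ProbabilityTheory.gaussianReal 0 1)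

/-- S_IU (infinite volume, `b = 2`, unimodal laws; from `S_LIM`, `S_UQ`). -/
def S_IU : Prop := ∀ (μ : Measure ℝ) [IsProbabilityMeasure μ], Uni μ → ∀ c : ℝ, 0 < c →
  Integrable (fun x => Real.exp (c * |x|)) μ → ∀ (β : ℝ) (p : ℕ → Fin 2 × Bool),
    (∀ (s : Bool) (k : ℕ), ∃ n, k ≤ n ∧ (p n).2 = s) →
    ∀ᵐ J ∂(Measure.infinitePi fun _ : EdgeInf 2 p => μ), ∃! γ, IsGibbs p (fun e => β * J e) γ

lemma Uni.symm {ν : Measure ℝ} (h : Uni ν) : ν.map (fun x => -x) = ν := by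
  obtain ⟨f, hf, he, -, rfl⟩ := h
  ext s hs
  rw [Measure.map_apply measurable_neg hs, withDensity_apply _ hs,
    withDensity_apply _ (measurable_neg hs)]
  have h1 : (fun x : ℝ => -x) ⁻¹' s = (MeasurableEquiv.neg ℝ) ⁻¹' s := rfl
  have h2 := (Measure.measurePreserving_neg (volume : Measure ℝ)).setLIntegral_comp_preimage
    hs hf
  calc ∫⁻ a in (fun x : ℝ => -x) ⁻¹' s, f a = ∫⁻ a in (fun x : ℝ => -x) ⁻¹' s, f (-a) := by
        simp_rw [he]
    _ = ∫⁻ a in s, f a := h2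

theorem t_IU (h1 : S_LIM) (h2 : S_UQ) : S_IU := by
  intro μ _ hU c hc hi β p hp
  obtain ⟨m, hm⟩ := h1 μ inferInstance hU c hc hi β
  refine h2 2 μ hU.symm β m ?_ p hp
  push_cast
  exact hm

end

end Pool.Agent.N988.EA
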