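import Mathlib
import Pool.Agent.N988.EA.Stm2
import Pool.Agent.N80.EA_H

/-!
# Low temperature, finite volume
-/

open MeasureTheory Set Filter
open scoped ENNReal Topology

namespace Pool.Agent.N988.EA

noncomputable section

lemma abs_sg (s : Bool) : |sg s| = 1 := by cases s <;> simp [sg]

lemma Z_pos {b n : ℕ} (J : Edge b n → ℝ) (τ : Bool → Bool) : 0 < Z J τ :=
  Finset.sum_pos (fun _ _ => Real.exp_pos _) Finset.univ_nonempty

lemma abs_mag_le {b n : ℕ} (J : Edge b n → ℝ) (τ : Bool → Bool) (x : Vert b n) :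
    |mag J τ x| ≤ 1 := by
  unfold mag
  rw [abs_div, abs_of_pos (Z_pos J τ), div_le_one (Z_pos J τ)]
  refine (Finset.abs_sum_le_sum_abs _ _).trans (Finset.sum_le_sum fun σ _ => ?_)
  rw [abs_mul, abs_sg, one_mul, abs_of_pos (Real.exp_pos _)]

lemma cont_act {b n : ℕ} (τ : Bool → Bool) (σ : Vert b n → Bool) :
    Continuous fun J : Edge b n → ℝ => act J τ σ := by
  unfold act
  fun_prop

lemma cont_mag {b n : ℕ} (τ : Bool → Bool) (x : Vert b n) :
    Continuous fun J : Edge b n → ℝ => mag J τ x := by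
  unfold mag
  refine Continuous.div ?_ ?_ fun J => (Z_pos J τ).ne'
  · exact continuous_finsetSum _ fun σ _ =>
      continuous_const.mul (Real.continuous_exp.comp (cont_act τ σ))
  · unfold Z
    exact continuous_finsetSum _ fun σ _ => Real.continuous_exp.comp (cont_act τ σ)

/-- The smallest polarisation. -/
def mn {b n : ℕ} (x : Vert b n) (J : Edge b n → ℝ) : ℝ := ⨅ τ, |mag J τ x|

lemma mn_nonneg {b n : ℕ} (x : Vert b n) (J : Edge b n → ℝ) : 0 ≤ mn x J :=
  Real.iInf_nonneg fun _ => abs_nonneg _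

lemma mn_le {b n : ℕ} (x : Vert b n) (J : Edge b n → ℝ) : mn x J ≤ 1 := by
  unfold mn
  exact (ciInf_le (Set.finite_range _).bddBelow (fun _ => true)).trans (abs_mag_le _ _ _)

lemma meas_mn {b n : ℕ} (x : Vert b n) : Measurable (mn x : (Edge b n → ℝ) → ℝ) := by
  have h : ∀ τ : Bool → Bool, Measurable fun J : Edge b n → ℝ => |mag J τ x| :=
    fun τ => (cont_mag τ x).measurable.abs
  exact Measurable.iInf h

lemma int_mn {b n : ℕ} (x : Vert b n) (ν : Measure (Edge b n → ℝ)) [IsProbabilityMeasure ν] :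
    Integrable (mn x) ν :=
  Integrable.of_bound (C := 1) (meas_mn x).aestronglyMeasurable
    (Eventually.of_forall fun J => by
      rw [Real.norm_eq_abs, abs_of_nonneg (mn_nonneg x J)]; exact mn_le x J)

lemma gp_nonneg (a b : ℝ) : 0 ≤ gp a b := by
  unfold gp
  have := Real.tanh_lt_one |(|a| - |b|)|
  linarith

lemma gp_le (a b : ℝ) : gp a b ≤ 1 := by
  unfold gp
  have : 0 ≤ Real.tanh |(|a| - |b|)| := by
    rw [Real.tanh_eq_sinh_div_cosh]
    exact div_nonneg (Real.sinh_nonneg_iff.2 (abs_nonneg _)) (Real.cosh_pos _).le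
  linarith

lemma meas_gp : Measurable fun p : ℝ × ℝ => gp p.1 p.2 := by
  unfold gp
  have ht : Continuous Real.tanh := by
    have : Real.tanh = fun x => Real.sinh x / Real.cosh x := by
      funext x; exact Real.tanh_eq_sinh_div_cosh x
    rw [this]
    exact Real.continuous_sinh.div Real.continuous_cosh fun x => (Real.cosh_pos x).ne'
  have h : Continuous fun p : ℝ × ℝ => 1 - Real.tanh |(|p.1| - |p.2|)| :=
    continuous_const.sub (ht.comp (by fun_prop))
  exact h.measurable

lemma int_gp (ν : Measure (ℝ × ℝ)) [IsProbabilityMeasure ν] :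
    Integrable (fun p : ℝ × ℝ => gp p.1 p.2) ν :=
  Integrable.of_bound (C := 1) meas_gp.aestronglyMeasurable
    (Eventually.of_forall fun p => by
      rw [Real.norm_eq_abs, abs_of_nonneg (gp_nonneg _ _)]; exact gp_le _ _)

lemma lvl_le {b : ℕ} : ∀ (n : ℕ) (x : Vert b n), lvl n x ≤ n
  | 0, _ => le_rfl
  | n + 1, .inl _ => Nat.le_succ n
  | n + 1, .inr p => (lvl_le n p.2.2).trans (Nat.le_succ n)

theorem mn_lower (hM : S_MN) (μ : Measure ℝ) [IsProbabilityMeasure μ] (b : ℕ) :
    ∀ (n : ℕ) (x : Vert b n),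
      1 - ∑ j ∈ Finset.Ico (lvl n x) n, ∫ p : ℝ × ℝ, gp p.1 p.2 ∂((lw μ b j).prod (lw μ b j)) ≤
        ∫ J, mn x J ∂(P μ b n) := by
  intro n
  induction n with
  | zero => intro x; exact x.elim
  | succ n ih =>
    intro x
    obtain ⟨-, -, h3, h4, -⟩ := Pool.Agent.N80.EA.t_H μ b n
    have hpair : ∀ i : Fin b, Measurable fun J : Edge b (n + 1) → ℝ =>
        ((K n fun e => J (i, false, e)), (K n fun e => J (i, true, e))) := fun i =>
      ((Pool.Agent.N80.EA.meas_K b n).comp (Pool.Agent.N80.EA.meas_half i false)).prodMk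
        ((Pool.Agent.N80.EA.meas_K b n).comp (Pool.Agent.N80.EA.meas_half i true))
    have hgp : ∀ i : Fin b, ∫ J, gp (K n fun e => J (i, false, e)) (K n fun e => J (i, true, e))
        ∂(P μ b (n + 1)) = ∫ p : ℝ × ℝ, gp p.1 p.2 ∂((lw μ b n).prod (lw μ b n)) := by
      intro i
      rw [← h4 i, integral_map (hpair i).aemeasurable meas_gp.aestronglyMeasurable]
    have hgi : ∀ i : Fin b, Integrable (fun J : Edge b (n + 1) → ℝ =>
        gp (K n fun e => J (i, false, e)) (K n fun e => J (i, true, e))) (P μ b (n + 1)) := by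
      intro i
      refine Integrable.of_bound (C := 1) (meas_gp.comp (hpair i)).aestronglyMeasurable
        (Eventually.of_forall fun p => ?_)
      rw [Real.norm_eq_abs, abs_of_nonneg (gp_nonneg _ _)]; exact gp_le _ _
    rcases x with i | ⟨i, h, x⟩
    · have hl : lvl (n + 1) (Sum.inl i : Vert b (n + 1)) = n := rfl
      rw [hl, Finset.sum_Ico_succ_top le_rfl, Finset.Ico_self, Finset.sum_empty, zero_add,
        ← hgp i]
      have h1 : (1 : ℝ) = ∫ _ : Edge b (n + 1) → ℝ, (1 : ℝ) ∂(P μ b (n + 1)) := by simp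
      conv_lhs => rw [h1]
      rw [← integral_sub (integrable_const _) (hgi i)]
      exact integral_mono ((integrable_const _).sub (hgi i)) (int_mn _ _)
        fun J => (hM b n J i).1
    · have hl : lvl (n + 1) (Sum.inr (i, h, x) : Vert b (n + 1)) = lvl n x := rfl
      rw [hl, Finset.sum_Ico_succ_top (lvl_le n x)]
      have h5 : ∫ J, mn x (fun e => J (i, h, e)) ∂(P μ b (n + 1)) = ∫ J, mn x J ∂(P μ b n) := by
        have h3' : (P μ b (n + 1)).map (Pool.Agent.N80.EA.half i h) = P μ b n := h3 i h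
        rw [← h3', integral_map (Pool.Agent.N80.EA.meas_half i h).aemeasurable
          (meas_mn x).aestronglyMeasurable]
        rfl
      have h6 : Integrable (fun J : Edge b (n + 1) → ℝ => mn x fun e => J (i, h, e))
          (P μ b (n + 1)) := by
        refine Integrable.of_bound (C := 1)
          ((meas_mn x).comp (Pool.Agent.N80.EA.meas_half i h)).aestronglyMeasurable
          (Eventually.of_forall fun J => ?_)
        rw [Real.norm_eq_abs, abs_of_nonneg (mn_nonneg x _)]; exact mn_le x _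
      have h7 := integral_mono (h6.sub (hgi i)) (int_mn (b := b) (n := n + 1)
        (Sum.inr (i, h, x) : Vert b (n + 1)) (P μ b (n + 1))) fun J => (hM b n J i).2 h x
      simp only [Pi.sub_apply] at h7
      rw [integral_sub h6 (hgi i), h5, hgp i] at h7
      have := ih x
      linarith

theorem t_A2 (hM : S_MN) (hG : S_GAP2) : S_A2 := by
  intro b hb μ _ hs r hr hw
  obtain ⟨β₀, hβ₀, h⟩ := hG b hb μ hs r hr hw
  refine ⟨β₀, hβ₀, fun ε hε => ?_⟩
  obtain ⟨k, hk⟩ := h ε hε
  refine ⟨k, fun β hβ n x hx => ?_⟩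
  have hmβ : Measurable fun x : ℝ => β * x := measurable_const_mul β
  have : IsProbabilityMeasure (μ.map fun x => β * x) :=
    Measure.isProbabilityMeasure_map hmβ.aemeasurable
  have h1 := mn_lower hM (μ.map fun x => β * x) b n x
  have h2 : ∑ j ∈ Finset.Ico (lvl n x) n, ∫ p : ℝ × ℝ, gp p.1 p.2
      ∂((lw (μ.map fun x => β * x) b j).prod (lw (μ.map fun x => β * x) b j)) ≤
      ∑ j ∈ Finset.Ico k n, ∫ p : ℝ × ℝ, gp p.1 p.2
      ∂((lw (μ.map fun x => β * x) b j).prod (lw (μ.map fun x => β * x) b j)) :=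
    Finset.sum_le_sum_of_subset_of_nonneg (Finset.Ico_subset_Ico hx le_rfl)
      fun j _ _ => integral_nonneg fun p => gp_nonneg _ _
  have h3 := hk β hβ n
  have h4 : P (μ.map fun x => β * x) b n =
      (Measure.pi fun _ : Edge b n => μ).map fun (J : Edge b n → ℝ) e => β * J e := by
    unfold P
    rw [Measure.pi_map_pi fun _ => hmβ.aemeasurable]
  have hm : Measurable fun (J : Edge b n → ℝ) e => β * J e :=
    measurable_pi_lambda _ fun e => hmβ.comp (measurable_pi_apply e)
  rw [h4, integral_map hm.aemeasurable (meas_mn x).aestronglyMeasurable] at h1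
  have h5 : (fun J : Edge b n → ℝ => mn x fun e => β * J e) =
    fun J : Edge b n → ℝ => ⨅ τ, |mag (fun e => β * J e) τ x| := rfl
  rw [h5] at h1
  linarith

end

end Pool.Agent.N988.EA
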