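import Mathlib
import Pool.Agent.N988.EA.Stm3
import Pool.Agent.N988.EA.Defs3

/-!
# Infinite hierarchical lattices: exactly two pure states, statements of the parts
-/

open MeasureTheory Set Filter
open scoped ENNReal Topology

namespace Pool.Agent.N988.EA

noncomputable section

/-- The effective coupling of `H n`. -/
def own {b : ℕ} (p : ℕ → Fin b × Bool) (J : EdgeInf b p → ℝ) (n : ℕ) : ℝ := K n (cpl p J n)

/-- The effective coupling of the other half of the branch of `H (n + 1)` which contains `H n`. -/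
def sib {b : ℕ} (p : ℕ → Fin b × Bool) (J : EdgeInf b p → ℝ) (n : ℕ) : ℝ :=
  K n fun e => cpl p J (n + 1) ((p n).1, !(p n).2, e)

/-- S_SEG (deterministic; from `S_G`). Proof. For a Gibbs state let `u_n`, `v_n`, `w_n` be the
means of `σ₀`, `σ₁`, `σ₀ σ₁` for the ends of `H n`; by `dlr` it is determined by them. With
`k = own n`, `k' = sib n`, `α = (tanh (k + k') + tanh (k - k')) / 2`,
`γ = (tanh (k + k') - tanh (k - k')) / 2` (so `tanh (k s + k' t) = α s + γ t`):
if `(p n).2 = false` then `u_n = u_(n+1)`, `v_n = α u_(n+1) + γ v_(n+1)`, `w_n = α + γ w_(n+1)`;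
if `(p n).2 = true` then `v_n = v_(n+1)`, `u_n = α v_(n+1) + γ u_(n+1)`, `w_n = α + γ w_(n+1)`.
(1) `|γ| ≤ 1`, and `|γ| ≤ 1/2` if `|k'| ≤ |k|`: so the `w_n` of two Gibbs states agree, for all `n`.
(2) If `|k'| ≤ |k|` then `|w_n| ≥ 1 - gp k k'`; so `|w_n| → 1` along a subsequence `N`, and there
`E |σ₁ - s σ₀| = 1 - |w_n|`, `s = sign w_n`.
(3) For every odd function `f` of the spins of `H m` and `n ≥ m` in `N`, `E f = a u_n + b v_n` with
`a, b` bounded and the same for all Gibbs states, so `E f = (a + s b) u_n + o(1)`,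
`u'_n E f - u_n E' f = o(1)`; taking a further subsequence along which `u_n → u`, `u'_n → u'` for
two Gibbs states: `u' E f = u E' f` for all odd `f`, and `u = 0` implies `E f = 0` for all odd `f`.
So the odd parts of all Gibbs states are multiples of the odd part `o` of one which is not
symmetric (one exists as there are two Gibbs states, whose even parts agree by (1)).
(4) The set of the `t` for which (even part) `+ t o` is a Gibbs state is a closed, bounded,
symmetric interval `[-T, T]`, `T > 0`; take `t = T`. -/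
def S_SEG : Prop := ∀ (b : ℕ) (p : ℕ → Fin b × Bool) (J : EdgeInf b p → ℝ),
  (∀ k : ℕ, ∃ n, k ≤ n ∧ |sib p J n| ≤ |own p J n|) →
  Tendsto (fun n => gp (own p J n) (sib p J n)) atTop (𝓝 0) →
  (∃ γ γ', γ ≠ γ' ∧ IsGibbs p J γ ∧ IsGibbs p J γ') →
  ∃ γ, IsGibbs p J γ ∧ γ ≠ fl γ ∧ ∀ γ', IsGibbs p J γ' ↔
    ∃ t ∈ Icc (0 : ℝ) 1, ∀ n s, γ' n s = t * γ n s + (1 - t) * fl γ n s

/-- S_IO (conditional Borel-Cantelli). Proof: `own (n + 1) = X + Y`, `X = ph (own n) (sib n)` (up to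
the order of the arguments), `Y` the sum of `b - 1` independent symmetric branches `Z'`,
independent of the past (the couplings of the branch of `H (n + 1)` containing `H n`); `sib (n + 1)`
is the sum of `b` independent copies `Z` of such branches, independent of all this. For fixed `X`
with probability at least `c > 0`, `c` depending only on `b ≥ 2`: `|Z_1 + … + Z_b| ≤ |X + Y|`.
(Among the `2 b - 1` branches the largest modulus belongs to a `Z'` with probability at least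
`(b - 1) / (2 b - 1)` by exchangeability; given the moduli the signs are independent and fair (law
symmetric); all `Z'` have the same sign, equal to the sign of `X` (if `X ≠ 0`) and the signs of the
`Z`, in the order of their moduli, alternate: then `|Y| = ∑ |Z'| ≥ max |Z'| ≥ |∑ Z|` and
`|X + Y| ≥ |Y|`.) So the probability that `|sib n| > |own n|` for all `n` with `k ≤ n ≤ N` is at
most `(1 - c) ^ (N - k)`. -/
def S_IO : Prop := ∀ (b : ℕ), 2 ≤ b → ∀ (μ : Measure ℝ) [IsProbabilityMeasure μ],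
  μ.map (fun x => -x) = μ → ∀ (β : ℝ) (p : ℕ → Fin b × Bool),
    ∀ᵐ J ∂(Measure.infinitePi fun _ : EdgeInf b p => μ),
      ∀ k : ℕ, ∃ n, k ≤ n ∧ |sib p (fun e => β * J e) n| ≤ |own p (fun e => β * J e) n|

/-- S_GZ (from `S_GAP2`, `S_H`, `S_MARG`). Proof: the expectations of `gp (own n) (sib n)` are
summable by `S_GAP2` (with `ε = 1`), so almost surely the sum of the `gp` is finite. -/
def S_GZ : Prop := ∀ (b : ℕ), 4 ≤ b → ∀ (μ : Measure ℝ) [IsProbabilityMeasure μ],
  μ.map (fun x => -x) = μ → ∀ r : ℝ, 0 < r → (∀ x, μ (Ico x (x + r)) ≤ 1 / 2) →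
  ∃ β₀ : ℝ, 0 < β₀ ∧ ∀ β : ℝ, β₀ ≤ β → ∀ p : ℕ → Fin b × Bool,
    ∀ᵐ J ∂(Measure.infinitePi fun _ : EdgeInf b p => μ),
      Tendsto (fun n => gp (own p (fun e => β * J e) n) (sib p (fun e => β * J e) n)) atTop (𝓝 0)

/-- S_IC (from `S_IA`, `S_SEG`, `S_IO`, `S_GZ`): exactly two pure states. -/
def S_IC : Prop := ∀ (b : ℕ), 4 ≤ b → ∀ (μ : Measure ℝ) [IsProbabilityMeasure μ],
  μ.map (fun x => -x) = μ → ∀ r : ℝ, 0 < r → (∀ x, μ (Ico x (x + r)) ≤ 1 / 2) →
  ∃ β₀ : ℝ, 0 < β₀ ∧ ∀ β : ℝ, β₀ ≤ β → ∀ p : ℕ → Fin b × Bool,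
    ∀ᵐ J ∂(Measure.infinitePi fun _ : EdgeInf b p => μ),
      ∃ γ, IsGibbs p (fun e => β * J e) γ ∧ γ ≠ fl γ ∧
        ∀ γ', IsGibbs p (fun e => β * J e) γ' ↔
          ∃ t ∈ Icc (0 : ℝ) 1, ∀ n s, γ' n s = t * γ n s + (1 - t) * fl γ n s

theorem t_IC (h1 : S_IA) (h2 : S_SEG) (h3 : S_IO) (h4 : S_GZ) : S_IC := by
  intro b hb μ _ hs r hr hw
  obtain ⟨β₁, hβ₁, k1⟩ := h1 b hb μ hs r hr hw
  obtain ⟨β₂, hβ₂, k2⟩ := h4 b hb μ hs r hr hw
  refine ⟨max β₁ β₂, lt_max_of_lt_left hβ₁, fun β hβ p => ?_⟩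
  filter_upwards [k1 β ((le_max_left _ _).trans hβ) p, k2 β ((le_max_right _ _).trans hβ) p,
    h3 b (by omega) μ hs β p] with J e1 e2 e3
  exact h2 b p _ e3 e2 e1

end

end Pool.Agent.N988.EA
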