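import Mathlib
import Pool.Agent.N988.EA.Stm2
import Pool.Agent.N713.EA_GAP

/-!
# Summable defects, with the same temperatures for all errors

The proof is helper713's proof of `S_GAP`.
-/

open MeasureTheory Set
open scoped ENNReal

namespace Pool.Agent.N988.EA

open Pool.Agent.N713.EA

noncomputable section

theorem t_GAP2 (h1 : S_WIN) (h2 : S_H) : S_GAP2 := by
  intro b hb μ hμ hsym r hr hwin
  obtain ⟨C, q, hC, hq0, hq1, c, hc, R₀, hR₀, hW⟩ := h1
  -- the summable majorant
  set g : ℕ → ℝ := fun j => 2 * Real.exp (-(2 * (j : ℝ))) + 4 * (j + 1) * (C * q ^ j) with hg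
  have hg0 : ∀ j, 0 ≤ g j := fun j => by positivity
  have hgs : Summable g := by
    have e1 : Summable fun j : ℕ => (Real.exp (-2)) ^ j :=
      summable_geometric_of_lt_one (Real.exp_pos _).le (by rw [Real.exp_lt_one_iff]; norm_num)
    have hqn : ‖q‖ < 1 := by rw [Real.norm_eq_abs, abs_of_pos hq0]; exact hq1
    have e2 : Summable fun j : ℕ => (j : ℝ) ^ 1 * q ^ j :=
      summable_pow_mul_geometric_of_norm_lt_one 1 hqn
    have e3 : Summable fun j : ℕ => q ^ j := summable_geometric_of_lt_one hq0.le hq1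
    refine (((e1.mul_left 2).add ((e2.add e3).mul_left (4 * C)))).congr fun j => ?_
    rw [hg]
    show 2 * Real.exp (-2) ^ j + 4 * C * ((j : ℝ) ^ 1 * q ^ j + q ^ j) =
      2 * Real.exp (-(2 * (j : ℝ))) + 4 * (j + 1) * (C * q ^ j)
    rw [← Real.exp_nat_mul]
    have : (j : ℝ) * -2 = -(2 * (j : ℝ)) := by ring
    rw [this]
    ring
  refine ⟨max (R₀ / r) (1 / (c * r)), by positivity, fun ε hε => ?_⟩
  obtain ⟨k, hk⟩ : ∃ k : ℕ, ∀ n, ∑ j ∈ Finset.Ico k n, g j ≤ ε := by
    have h3 := hgs.hasSum.tendsto_sum_nat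
    have h4 : ∀ᶠ k in Filter.atTop, (∑' j, g j) - ε < ∑ j ∈ Finset.range k, g j :=
      h3.eventually (lt_mem_nhds (by linarith))
    obtain ⟨k, hk⟩ := h4.exists
    refine ⟨k, fun n => ?_⟩
    rcases le_total k n with hkn | hkn
    · rw [Finset.sum_Ico_eq_sub _ hkn]
      have h5 : ∑ j ∈ Finset.range n, g j ≤ ∑' j, g j := hgs.sum_le_tsum _ fun j _ => hg0 j
      linarith
    · rw [Finset.Ico_eq_empty_of_le hkn, Finset.sum_empty]
      exact hε.le
  refine ⟨k, fun β hβ n => ?_⟩
  have hcr : 0 < c * r := by positivity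
  have hβ1 : R₀ ≤ β * r := by
    rw [← div_le_iff₀ hr]
    exact (le_max_left _ _).trans hβ
  have hβ2 : 1 ≤ c * (β * r) := by
    have := (le_max_right _ _).trans hβ
    rw [div_le_iff₀ hcr] at this
    linarith
  have hβ0 : 0 < β := by
    have h5 : 0 < β * r := lt_of_lt_of_le hR₀ hβ1
    exact (pos_iff_pos_of_mul_pos h5).2 hr
  have hmm : Measurable fun x : ℝ => β * x := measurable_const_mul β
  set μβ : Measure ℝ := μ.map fun x => β * x with hμβ
  haveI : IsProbabilityMeasure μβ := Measure.isProbabilityMeasure_map hmm.aemeasurable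
  have hsβ : μβ.map (fun x => -x) = μβ := by
    rw [hμβ, Measure.map_map measurable_neg hmm]
    have h5 : (fun x : ℝ => -x) ∘ (fun x => β * x) = (fun x => β * x) ∘ fun x => -x := by
      funext x
      simp
    rw [h5, ← Measure.map_map hmm measurable_neg, hsym]
  have hwβ : ∀ x, μβ (Ico x (x + β * r)) ≤ 1 / 2 := by
    intro x
    rw [hμβ, Measure.map_apply hmm measurableSet_Ico]
    refine (measure_mono ?_).trans (hwin (x / β))
    intro y hy
    obtain ⟨h5, h6⟩ := hy
    refine ⟨?_, ?_⟩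
    · rw [div_le_iff₀ hβ0]
      linarith
    · have h7 : β * y < β * (x / β + r) := by
        rw [mul_add, mul_div_cancel₀ _ hβ0.ne']
        exact h6
      exact lt_of_mul_lt_mul_left h7 hβ0.le
  have hW' := hW b μβ hb hsβ (β * r) hβ1 hwβ
  refine le_trans (Finset.sum_le_sum fun j _ => ?_) (hk n)
  haveI : IsProbabilityMeasure (lw μβ b j) := by
    obtain ⟨h5, h6, -⟩ := h2 μβ b j
    rw [← h6]
    haveI : IsProbabilityMeasure (P μβ b j) := by unfold P; infer_instance
    exact Measure.isProbabilityMeasure_map h5.aemeasurable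
  set w : ℝ := c * (β * r) with hwd
  have h8 : ∀ a, (lw μβ b j) {b' : ℝ | |(|a| - |b'|)| < w + j} ≤
      ENNReal.ofReal (4 * (j + 1) * (C * q ^ j)) := by
    intro a
    refine (cover (lw μβ b j) w (w + j) (by linarith) _ (hW' j) (2 * j + 2) ?_ a).trans ?_
    · push_cast
      nlinarith [Nat.cast_nonneg (α := ℝ) j]
    · have e1 : ((2 * j + 2 : ℕ) : ℝ≥0∞) = ENNReal.ofReal (2 * j + 2) := by
        rw [← ENNReal.ofReal_natCast]
        push_cast
        rfl
      have e2 : (2 : ℝ≥0∞) = ENNReal.ofReal 2 := by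
        rw [ENNReal.ofReal_ofNat]
      rw [e1, e2, ← ENNReal.ofReal_mul (by positivity), ← ENNReal.ofReal_mul (by positivity)]
      refine ENNReal.ofReal_le_ofReal (le_of_eq ?_)
      ring
  refine (int_gp (lw μβ b j) (w + j) _ (by positivity) h8).trans ?_
  have h9 : Real.exp (-(2 * (w + j))) ≤ Real.exp (-(2 * (j : ℝ))) :=
    Real.exp_le_exp.2 (by linarith)
  show _ ≤ 2 * Real.exp (-(2 * (j : ℝ))) + 4 * (j + 1) * (C * q ^ j)
  linarith

end

end Pool.Agent.N988.EA
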