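import Mathlib
import Pool.Agent.N988.EA.A2
import Pool.Agent.N988.EA.Gap2
import Pool.Agent.N271.EA_G
import Pool.Agent.N91.EA_MNCF
import Pool.Agent.N80.EA_H
import Pool.Agent.N322.EA_T
import Pool.Agent.N814.EA_CNT
import Pool.Agent.N519.EA_QU
import Pool.Agent.N665.EA_PHLAY
import Pool.Agent.N862.EA_QUAD
import Pool.Agent.N727.EA_STEP
import Pool.Agent.N433.EA_NUM
import Pool.Agent.N189.EA_ANA
import Pool.Agent.N195.EA_WIN
import Pool.Agent.N413.EA_MARG
import Pool.Agent.N51.EA_EX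
import Pool.Agent.N46.EA_UN
import Pool.Agent.N73.EA_IA
import Pool.Agent.N764.EA_UQ

/-!
# The Edwards-Anderson model on hierarchical lattices: assembly
-/

open MeasureTheory Set Filter
open scoped ENNReal Topology

namespace Pool.Agent.N988.EA

noncomputable section

theorem k_G : S_G := Pool.Agent.N271.EA.t_G
theorem k_MN : S_MN := Pool.Agent.N91.EA.t_MN k_G
theorem k_H : S_H := Pool.Agent.N80.EA.t_H
theorem k_T : S_T := Pool.Agent.N322.EA.t_T
theorem k_T1 : S_T1 := Pool.Agent.N322.EA.t_T1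
theorem k_QUAD : S_QUAD := Pool.Agent.N862.EA.t_QUAD Pool.Agent.N814.EA.t_CNT
theorem k_LAY : S_LAY :=
  Pool.Agent.N665.EA.t_LAY Pool.Agent.N519.EA.t_QU Pool.Agent.N665.EA.t_PH
theorem k_STEP : S_STEP := Pool.Agent.N727.EA.t_STEP k_LAY k_QUAD
theorem k_WIN : S_WIN :=
  Pool.Agent.N195.EA.t_WIN k_STEP Pool.Agent.N433.EA.t_NUM Pool.Agent.N189.EA.t_ANA k_H
theorem k_GAP2 : S_GAP2 := t_GAP2 k_WIN k_H
theorem k_A2 : S_A2 := t_A2 k_MN k_GAP2
theorem k_MARG : S_MARG := Pool.Agent.N413.EA.t_MARG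
theorem k_EX0 : S_EX0 := Pool.Agent.N51.EA.t_EX0
theorem k_EX : S_EX := Pool.Agent.N51.EA.t_EX
theorem k_UN : S_UN := Pool.Agent.N46.EA.t_UN k_G
theorem k_IA : S_IA := Pool.Agent.N73.EA.t_IA k_G k_A2 k_EX k_MARG
theorem k_UQ : S_UQ := Pool.Agent.N764.EA.t_UQ k_EX0 k_UN k_T k_H k_MARG

instance : IsProbabilityMeasure pm := ⟨by
  simp only [pm, Measure.coe_add, Measure.coe_smul, Pi.add_apply, Pi.smul_apply,
    measure_univ, smul_eq_mul, mul_one]
  exact ENNReal.add_halves 1⟩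

lemma pm_symm : pm.map (fun x => -x) = pm := by
  have hm : Measurable fun x : ℝ => -x := measurable_neg
  unfold pm
  rw [Measure.map_add _ _ hm, Measure.map_smul, Measure.map_smul, Measure.map_dirac' hm,
    Measure.map_dirac' hm, neg_neg, add_comm]

theorem k_IB : S_IB := by
  intro β p hp
  obtain ⟨q, hq0, hq, h⟩ := k_T1 β
  refine k_UQ 2 pm pm_symm β 1 ?_ p hp
  have : ∫ x, Real.tanh x ^ 2 ∂(lw (pm.map fun x => β * x) 2 1) ≤ q := h
  push_cast
  linarith

/-- High temperature, any number of branches. -/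
theorem k_high (b : ℕ) (μ : Measure ℝ) [IsProbabilityMeasure μ] (hs : μ.map (fun x => -x) = μ)
    (β : ℝ) (h : b * ∫ x, Real.tanh (β * x) ^ 2 ∂μ < 1) (p : ℕ → Fin b × Bool)
    (hp : ∀ (s : Bool) (k : ℕ), ∃ n, k ≤ n ∧ (p n).2 = s) :
    ∀ᵐ J ∂(Measure.infinitePi fun _ : EdgeInf b p => μ),
      ∃! γ, IsGibbs p (fun e => β * J e) γ := by
  refine k_UQ b μ hs β 0 ?_ p hp
  have hmm : Measurable fun x : ℝ => β * x := measurable_const_mul β
  have ht : Continuous Real.tanh := by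
    have : Real.tanh = fun x => Real.sinh x / Real.cosh x := by
      funext x; exact Real.tanh_eq_sinh_div_cosh x
    rw [this]
    exact Real.continuous_sinh.div Real.continuous_cosh fun x => (Real.cosh_pos x).ne'
  show b * ∫ x, Real.tanh x ^ 2 ∂(μ.map fun x => β * x) < 1
  have hf : AEStronglyMeasurable (fun x => Real.tanh x ^ 2) (μ.map fun x => β * x) :=
    (ht.pow 2).aestronglyMeasurable
  rw [integral_map hmm.aemeasurable hf]
  exact h

end

end Pool.Agent.N988.EA
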