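import Mathlib
import Pool.Agent.N988.EA.Main
import Pool.Agent.N988.EA.Stm4
import Pool.Agent.N988.EA.Stm5
import Pool.Agent.N152.EA_SEG
import Pool.Agent.N78.EA_IO
import Pool.Agent.N225.EA_GZ
import Pool.Agent.N787.EA_WIAN
import Pool.Agent.N27.EA_CMP
import Pool.Agent.N222.EA_BR
import Pool.Agent.N42.EA_REF
import Pool.Agent.N507.EA_CON
import Pool.Agent.N342.EA_INI
import Pool.Agent.N933.EA_LIM

/-!
# The Edwards-Anderson model on hierarchical lattices: assembly, second part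
-/

open MeasureTheory Set Filter
open scoped ENNReal Topology

namespace Pool.Agent.N988.EA

noncomputable section

theorem k_IC : S_IC :=
  t_IC k_IA (Pool.Agent.N152.EA.t_SEG k_G) (Pool.Agent.N78.EA.t_IO k_H k_MARG)
    (Pool.Agent.N225.EA.t_GZ k_GAP2 k_H k_MARG)

theorem k_CON : S_CON :=
  Pool.Agent.N507.EA.t_CON Pool.Agent.N787.EA.t_SUM
    (Pool.Agent.N27.EA.t_CMP Pool.Agent.N787.EA.t_AN) Pool.Agent.N222.EA.t_BR
    Pool.Agent.N42.EA.t_REF

theorem k_IU : S_IU :=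
  t_IU (Pool.Agent.N933.EA.t_LIM k_CON (Pool.Agent.N342.EA.t_INI Pool.Agent.N787.EA.t_AN)) k_UQ

theorem k_two (μ : Measure ℝ) [IsProbabilityMeasure μ]
    (h : μ = pm ∨ (Uni μ ∧ ∃ c : ℝ, 0 < c ∧ Integrable (fun x => Real.exp (c * |x|)) μ))
    (β : ℝ) (p : ℕ → Fin 2 × Bool) (hp : ∀ (s : Bool) (k : ℕ), ∃ n, k ≤ n ∧ (p n).2 = s) :
    ∀ᵐ J ∂(Measure.infinitePi fun _ : EdgeInf 2 p => μ),
      ∃! γ, IsGibbs p (fun e => β * J e) γ := by
  rcases h with rfl | ⟨hU, c, hc, hi⟩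
  · exact k_IB β p hp
  · exact k_IU μ hU c hc hi β p hp

/-- The standard Gaussian law satisfies both assumptions. -/
theorem k_gauss : Uni (ProbabilityTheory.gaussianReal 0 1) ∧
    Integrable (fun x => Real.exp (1 * |x|)) (ProbabilityTheory.gaussianReal 0 1) :=
  Pool.Agent.N342.EA.t_GS

end

end Pool.Agent.N988.EA
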